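import Pool.Agent.Lib.HSC.Defs

/-!
# HSC / Aff: the affine profile

PROOF IN WORDS. `h u = p + q u`, `I n = ∫_0^1 (p + q u)^n`. `p * I m + q * ∫ (p + q u)^m u = I (m+1)`, so the claim is `(m+1) h v * I m ≤ (m+2) I (m+1)`. As
`(n+1) q I n = (p+q)^(n+1) - p^(n+1)`, after multiplication by `q` (or `-q`) this is an inequality for powers of `p` and `p + q`.
-/

set_option autoImplicit false

open MeasureTheory Set

namespace Pool.Agent.Lib.HSC

private theorem int_pow (p q : ℝ) (n : ℕ) :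
    (n + 1 : ℝ) * q * (∫ u in (0 : ℝ)..1, (p + q * u) ^ n) = (p + q) ^ (n + 1) - p ^ (n + 1) := by
  have h1 : ∀ u ∈ uIcc (0 : ℝ) 1, HasDerivAt (fun u : ℝ => (p + q * u) ^ (n + 1)) ((n + 1 : ℝ) * q * (p + q * u) ^ n) u := by
    intro u _
    have h2 : HasDerivAt (fun u : ℝ => p + q * u) q u := by
      have := ((hasDerivAt_id u).const_mul q).const_add p
      simpa using this
    have h3 := h2.pow (n + 1)
    refine h3.congr_deriv ?_
    rw [Nat.add_sub_cancel]
    push_cast
    ring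
  have h2 : IntervalIntegrable (fun u : ℝ => (n + 1 : ℝ) * q * (p + q * u) ^ n) volume 0 1 := by
    apply Continuous.intervalIntegrable
    fun_prop
  have h3 := intervalIntegral.integral_eq_sub_of_hasDerivAt h1 h2
  rw [intervalIntegral.integral_const_mul] at h3
  rw [h3]
  simp

theorem affine_ineq {m : ℕ} {h : ℝ → ℝ} (p q : ℝ) (hh : ∀ u ∈ Icc (0 : ℝ) 1, h u = p + q * u) (hp : 0 ≤ p) (hpq : 0 ≤ p + q)
    (hmass : 0 < mass m h) : ∀ v ∈ Icc (0 : ℝ) 1, (m + 1 : ℝ) * h v ≤ (m + 2) * (p + q * mean m h) := by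
  intro v hv
  have hM : mass m h = ∫ u in (0 : ℝ)..1, (p + q * u) ^ m := by
    unfold mass
    apply intervalIntegral.integral_congr
    intro u hu
    rw [uIcc_of_le zero_le_one] at hu
    simp only [hh u hu]
  have hT : (∫ u in (0 : ℝ)..1, h u ^ m * u) = ∫ u in (0 : ℝ)..1, (p + q * u) ^ m * u := by
    apply intervalIntegral.integral_congr
    intro u hu
    rw [uIcc_of_le zero_le_one] at hu
    simp only [hh u hu]
  have hS : p * (∫ u in (0 : ℝ)..1, (p + q * u) ^ m) + q * (∫ u in (0 : ℝ)..1, (p + q * u) ^ m * u) =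
      ∫ u in (0 : ℝ)..1, (p + q * u) ^ (m + 1) := by
    rw [← intervalIntegral.integral_const_mul, ← intervalIntegral.integral_const_mul, ← intervalIntegral.integral_add]
    · apply intervalIntegral.integral_congr
      intro u _
      simp only
      ring
    · apply Continuous.intervalIntegrable
      fun_prop
    · apply Continuous.intervalIntegrable
      fun_prop
  unfold mean
  rw [hT]
  rw [hM] at hmass ⊢
  have k1 := int_pow p q m
  have k2 := int_pow p q (m + 1)
  set I0 := ∫ u in (0 : ℝ)..1, (p + q * u) ^ m with hI0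
  set I1 := ∫ u in (0 : ℝ)..1, (p + q * u) ^ (m + 1) with hI1
  set T := ∫ u in (0 : ℝ)..1, (p + q * u) ^ m * u with hTT
  have h1 : p + q * (T / I0) = I1 / I0 := by
    rw [← hS]
    field_simp
  rw [h1, hh v hv, ← mul_div_assoc, le_div_iff₀ hmass]
  obtain ⟨hv0, hv1⟩ := hv
  push_cast at k2
  have hm : (0 : ℝ) ≤ m := Nat.cast_nonneg m
  rcases lt_trichotomy q 0 with hq | hq | hq
  · have e1 : 0 < p ^ (m + 1) - (p + q) ^ (m + 1) := by
      have : 0 < (m + 1 : ℝ) * (-q) * I0 := mul_pos (mul_pos (by linarith) (by linarith)) hmass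
      linarith
    have e2 : (p + q * v) * (p ^ (m + 1) - (p + q) ^ (m + 1)) ≤ p * (p ^ (m + 1) - (p + q) ^ (m + 1)) :=
      mul_le_mul_of_nonneg_right (by nlinarith) e1.le
    have e3 : (p + q) * (p + q) ^ (m + 1) ≤ p * (p + q) ^ (m + 1) :=
      mul_le_mul_of_nonneg_right (by linarith) (pow_nonneg hpq _)
    have e4 : (-q) * ((m + 1 : ℝ) * (p + q * v) * I0) ≤ (-q) * ((m + 2) * I1) := by
      have e5 : (-q) * ((m + 1 : ℝ) * (p + q * v) * I0) = (p + q * v) * (p ^ (m + 1) - (p + q) ^ (m + 1)) := by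
        have : (-q) * ((m + 1 : ℝ) * (p + q * v) * I0) = -((p + q * v) * ((m + 1 : ℝ) * q * I0)) := by ring
        rw [this, k1]
        ring
      have e6 : (-q) * ((m + 2 : ℝ) * I1) = p ^ (m + 1 + 1) - (p + q) ^ (m + 1 + 1) := by
        have : (-q) * ((m + 2 : ℝ) * I1) = -((m + 1 + 1 : ℝ) * q * I1) := by ring
        rw [this, k2]
        ring
      rw [e5, e6, pow_succ' p (m + 1), pow_succ' (p + q) (m + 1)]
      linarith
    exact le_of_mul_le_mul_left e4 (by linarith)
  · subst hq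
    have e1 : I1 = p * I0 := by rw [← hS]; ring
    rw [e1]
    have : 0 ≤ p * I0 := mul_nonneg hp hmass.le
    nlinarith
  · have e1 : 0 < (p + q) ^ (m + 1) - p ^ (m + 1) := by
      have : 0 < (m + 1 : ℝ) * q * I0 := mul_pos (mul_pos (by linarith) hq) hmass
      linarith
    have e2 : (p + q * v) * ((p + q) ^ (m + 1) - p ^ (m + 1)) ≤ (p + q) * ((p + q) ^ (m + 1) - p ^ (m + 1)) :=
      mul_le_mul_of_nonneg_right (by nlinarith) e1.le
    have e3 : p * p ^ (m + 1) ≤ (p + q) * p ^ (m + 1) :=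
      mul_le_mul_of_nonneg_right (by linarith) (pow_nonneg hp _)
    have e4 : q * ((m + 1 : ℝ) * (p + q * v) * I0) ≤ q * ((m + 2) * I1) := by
      have e5 : q * ((m + 1 : ℝ) * (p + q * v) * I0) = (p + q * v) * ((p + q) ^ (m + 1) - p ^ (m + 1)) := by
        have : q * ((m + 1 : ℝ) * (p + q * v) * I0) = (p + q * v) * ((m + 1 : ℝ) * q * I0) := by ring
        rw [this, k1]
      have e6 : q * ((m + 2 : ℝ) * I1) = (p + q) ^ (m + 1 + 1) - p ^ (m + 1 + 1) := by
        have : q * ((m + 2 : ℝ) * I1) = (m + 1 + 1 : ℝ) * q * I1 := by ring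
        rw [this, k2]
      rw [e5, e6, pow_succ' p (m + 1), pow_succ' (p + q) (m + 1)]
      linarith
    exact le_of_mul_le_mul_left e4 hq

end Pool.Agent.Lib.HSC
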