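import Pool.Agent.Lib.HSC.Defs

/-!
# HSC / Cen: the centre in weighted mixability is the centroid; the chord inequality
-/

set_option autoImplicit false

open MeasureTheory Set

namespace Pool.Agent.Lib.HSC

open Pool.Agent.Lib.MP_a34d76_pr.WM

/-- the centre of a weighted mixable body is its centroid -/
theorem centre {m N : ℕ} {K : Set (Fin m → ℝ)} (hKc : IsCompact K) (hK0 : volume K ≠ 0) (hN : 1 ≤ N)
    {c : Fin m → ℝ} (hc : WMix (N : ℝ) ((unif volume K).map fun x => x - c)) (h0 : ∫ x in K, x = 0) :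
    c = 0 := by
  have hP := isProb_unif hK0 hKc.measure_lt_top.ne
  obtain ⟨P, hP1, hP2, hP3⟩ := hc.mixable (n := N) le_rfl
  have hsub : Measurable fun x : Fin m → ℝ => x - c := measurable_sub_const c
  have hid : ∀ ν : Measure (Fin m → ℝ), AEStronglyMeasurable (fun y : Fin m → ℝ => y) ν :=
    fun ν => continuous_id.aestronglyMeasurable
  have hi0 : Integrable (fun x : Fin m → ℝ => x) (unif volume K) := by
    rw [unif]
    refine Integrable.smul_measure ?_ (by simpa using hK0)
    exact continuous_id.continuousOn.integrableOn_compact hKc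
  have hi1 : Integrable (fun x : Fin m → ℝ => x - c) (unif volume K) := hi0.sub (integrable_const c)
  have hi2 : Integrable (fun x : Fin m → ℝ => x) ((unif volume K).map fun x => x - c) :=
    (integrable_map_measure continuous_id.aestronglyMeasurable hsub.aemeasurable).2 hi1
  have hi3 : ∀ i : Fin N, Integrable (fun x : Fin N → (Fin m → ℝ) => x i) P := by
    intro i
    have e1 := hi2
    rw [← hP2 i] at e1
    exact (integrable_map_measure continuous_id.aestronglyMeasurable
      (measurable_pi_apply i).aemeasurable).1 e1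
  have h1 : ∫ x, ∑ i, x i ∂P = 0 := by
    rw [integral_congr_ae hP3]
    simp
  rw [integral_finsetSum _ fun i _ => hi3 i] at h1
  have h2 : ∀ i : Fin N, ∫ x, x i ∂P = -c := by
    intro i
    have e1 : ∫ x, x i ∂P = ∫ y, y ∂(P.map fun x => x i) := by
      exact (integral_map (φ := fun x : Fin N → (Fin m → ℝ) => x i) (f := fun y : Fin m → ℝ => y)
        (measurable_pi_apply i).aemeasurable (hid _)).symm
    rw [e1, hP2 i, integral_map (φ := fun x : Fin m → ℝ => x - c) (f := fun y : Fin m → ℝ => y)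
        hsub.aemeasurable (hid _),
      integral_sub hi0 (integrable_const c)]
    rw [unif, integral_smul_measure, h0, smul_zero, zero_sub]
    rw [unif] at hP
    simp
  simp only [h2, Finset.sum_const, Finset.card_univ, Fintype.card_fin] at h1
  have hN' : (N : ℝ) ≠ 0 := by
    have : N ≠ 0 := by omega
    exact_mod_cast this
  have h3 : (N : ℝ) • (-c) = 0 := by
    rw [← h1, Nat.cast_smul_eq_nsmul]
  have h4 := (smul_eq_zero.1 h3).resolve_left hN'
  exact neg_eq_zero.1 h4

/-- the sum of a concave profile is at least that of its chord -/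
theorem chord {n : ℕ} {h : ℝ → ℝ} (hconc : ConcaveOn ℝ (Icc (0 : ℝ) 1) h) (μ : ℝ) (u : Fin n → ℝ)
    (hu : ∀ i, u i ∈ Icc (0 : ℝ) 1) (hs : ∑ i, u i = n * μ) :
    n * ((1 - μ) * h 0 + μ * h 1) ≤ ∑ k, h (u k) := by
  have h1 : ∀ k, (1 - u k) * h 0 + u k * h 1 ≤ h (u k) := by
    intro k
    have h2 := hconc.2 (show (0 : ℝ) ∈ Icc (0 : ℝ) 1 by simp) (show (1 : ℝ) ∈ Icc (0 : ℝ) 1 by simp)
      (by linarith [(hu k).2] : (0 : ℝ) ≤ 1 - u k) (hu k).1 (by ring)
    simpa using h2
  have h3 : ∑ k, ((1 - u k) * h 0 + u k * h 1) = n * ((1 - μ) * h 0 + μ * h 1) := by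
    have e : ∀ k, (1 - u k) * h 0 + u k * h 1 = h 0 + u k * (h 1 - h 0) := fun k => by ring
    simp only [e]
    rw [Finset.sum_add_distrib, ← Finset.sum_mul, hs]
    simp
    ring
  rw [← h3]
  exact Finset.sum_le_sum fun k _ => h1 k

end Pool.Agent.Lib.HSC
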