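import Pool.Agent.Lib.HSC.Pos

/-!
# HSC / Hgt: the coupling of the heights

PROOF IN WORDS. `I = mass m h > 0`; `φ u = I ^ (-(1/m)) * h u` (real power), so `φ u ^ m = h u ^ m / I` (`m ≥ 1`, `h u ≥ 0`); `μ = (volume.restrict (Icc 0 1)).withDensity (ofReal (φ ^ m))` is a probability measure; apply `OneDimProjectionsResult.result (m + 1)` with `A = 0`, `B = 1`. The law of every coordinate is `μ`, so `u i ∈ Icc 0 1` a.e. and `∫ G (u i) = ∫ G dμ = (∫_0^1 h^m G) / I` for continuous `G`; the constant is `n * mean m h`: integrate `∑ i, u i = c`.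
-/

set_option autoImplicit false

open MeasureTheory Set
open scoped ENNReal

namespace Pool.Agent.Lib.HSC

theorem heights {m n : ℕ} (hm : 1 ≤ m) (hn : m + 2 ≤ n) {h : ℝ → ℝ} (hc : Continuous h)
    (hconc : ConcaveOn ℝ (Icc (0 : ℝ) 1) h) (h0 : ∀ u ∈ Icc (0 : ℝ) 1, 0 ≤ h u)
    (hpos : ∀ u ∈ Ioo (0 : ℝ) 1, 0 < h u) :
    ∃ σ : Measure (Fin n → ℝ), IsProbabilityMeasure σ ∧
      (∀ᵐ u ∂σ, (∀ i, u i ∈ Icc (0 : ℝ) 1) ∧ ∑ i, u i = n * mean m h) ∧
      ∀ i, ∀ G : ℝ → ℝ, Continuous G →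
        mass m h * ∫ u, G (u i) ∂σ = ∫ u in (0 : ℝ)..1, h u ^ m * G u := by
  have hI : 0 < mass m h := mass_pos m hc hpos
  have hm0 : (m : ℝ) ≠ 0 := by
    have : (1 : ℝ) ≤ m := by exact_mod_cast hm
    linarith
  set k : ℝ := mass m h ^ (-(1 / (m : ℝ))) with hk
  have hk0 : 0 ≤ k := Real.rpow_nonneg hI.le _
  have hkm : k ^ m = (mass m h)⁻¹ := by
    rw [hk, ← Real.rpow_natCast, ← Real.rpow_mul hI.le, show -(1 / (m : ℝ)) * m = -1 by field_simp,
      Real.rpow_neg_one]
  have hφc : Continuous fun u => k * h u := continuous_const.mul hc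
  have hφ0 : ∀ u ∈ Icc (0 : ℝ) 1, 0 ≤ k * h u := fun u hu => mul_nonneg hk0 (h0 u hu)
  have hφm : ∀ u, (k * h u) ^ m = h u ^ m / mass m h := by
    intro u
    rw [mul_pow, hkm]
    ring
  have hφconc : ConcaveOn ℝ (Icc (0 : ℝ) 1) fun u => k * h u := by
    have := hconc.smul hk0
    simpa [smul_eq_mul] using this
  have hmass : mass m h = ∫ u in Icc (0 : ℝ) 1, h u ^ m := by
    rw [mass, intervalIntegral.integral_of_le zero_le_one, integral_Icc_eq_integral_Ioc]
  have hint : IntegrableOn (fun u => (k * h u) ^ m) (Icc (0 : ℝ) 1) :=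
    (hφc.pow m).continuousOn.integrableOn_compact isCompact_Icc
  have hone : ∫ u in Icc (0 : ℝ) 1, (k * h u) ^ m = 1 := by
    simp_rw [hφm]
    rw [integral_div, ← hmass, div_self hI.ne']
  set μ : Measure ℝ := (volume.restrict (Icc (0 : ℝ) 1)).withDensity
    (fun x => ENNReal.ofReal ((k * h x) ^ (m + 1 - 1))) with hμ
  have hμ' : μ = (volume.restrict (Icc (0 : ℝ) 1)).withDensity (fun x => ENNReal.ofReal ((k * h x) ^ m)) := rfl
  have hprob : IsProbabilityMeasure μ := by
    constructor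
    rw [hμ', withDensity_apply _ MeasurableSet.univ, Measure.restrict_univ,
      ← ofReal_integral_eq_lintegral_ofReal hint ?_, hone, ENNReal.ofReal_one]
    filter_upwards [ae_restrict_mem measurableSet_Icc] with x hx
    exact pow_nonneg (hφ0 x hx) m
  obtain ⟨σ, hσ, hlaw, c, hcσ⟩ := Pool.Agent.Lib.MP_a34d76_pr.OneDimProjectionsResult.result (m + 1) (by omega)
    0 1 zero_lt_one (fun u => k * h u) hφc.continuousOn hφconc hφ0 μ hprob hμ n (by omega)
  have hμae : ∀ᵐ y ∂μ, y ∈ Icc (0 : ℝ) 1 :=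
    (withDensity_absolutelyContinuous _ _).ae_le (ae_restrict_mem measurableSet_Icc)
  have hmem : ∀ i, ∀ᵐ u ∂σ, u i ∈ Icc (0 : ℝ) 1 := by
    intro i
    have h1 : ∀ᵐ y ∂(σ.map fun x : Fin n → ℝ => x i), y ∈ Icc (0 : ℝ) 1 := by
      rw [hlaw i]
      exact hμae
    exact ae_of_ae_map (measurable_pi_apply i).aemeasurable h1
  have hG : ∀ i, ∀ G : ℝ → ℝ, Continuous G →
      mass m h * ∫ u, G (u i) ∂σ = ∫ u in (0 : ℝ)..1, h u ^ m * G u := by
    intro i G hGc
    have h1 : ∫ u, G (u i) ∂σ = ∫ y, G y ∂μ := by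
      rw [← hlaw i, integral_map (measurable_pi_apply i).aemeasurable hGc.aestronglyMeasurable]
    have h2 : ∫ y, G y ∂μ = ∫ y in Icc (0 : ℝ) 1, (k * h y) ^ m * G y := by
      have hme : Measurable fun x => ENNReal.ofReal ((k * h x) ^ m) := (hφc.pow m).measurable.ennreal_ofReal
      rw [hμ', integral_withDensity_eq_integral_toReal_smul hme
        (Filter.Eventually.of_forall fun _ => ENNReal.ofReal_lt_top)]
      refine setIntegral_congr_fun measurableSet_Icc fun y hy => ?_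
      simp only [smul_eq_mul]
      rw [ENNReal.toReal_ofReal (pow_nonneg (hφ0 y hy) m)]
    rw [h1, h2, intervalIntegral.integral_of_le zero_le_one, ← integral_Icc_eq_integral_Ioc, ← integral_const_mul]
    refine setIntegral_congr_fun measurableSet_Icc fun y _ => ?_
    simp only [hφm]
    field_simp
  have hintu : ∀ i, Integrable (fun u : Fin n → ℝ => u i) σ := by
    intro i
    refine Integrable.of_bound (measurable_pi_apply i).aestronglyMeasurable 1 ?_
    filter_upwards [hmem i] with u hu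
    rw [Real.norm_eq_abs, abs_of_nonneg hu.1]
    exact hu.2
  have hcval : c = n * mean m h := by
    have h1 : ∫ u, (∑ i, u i) ∂σ = c := by
      rw [integral_congr_ae hcσ]
      simp
    rw [integral_finsetSum _ fun i _ => hintu i] at h1
    have h2 : ∀ i : Fin n, ∫ u, u i ∂σ = mean m h := by
      intro i
      have h3 := hG i (fun y => y) continuous_id
      rw [mean, eq_div_iff hI.ne', ← h3, mul_comm]
    rw [Finset.sum_congr rfl fun i _ => h2 i] at h1
    rw [← h1]
    simp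
  refine ⟨σ, hσ, ?_, hG⟩
  filter_upwards [ae_all_iff.2 hmem, hcσ] with u hu hsum
  exact ⟨hu, by rw [hsum, hcval]⟩

end Pool.Agent.Lib.HSC
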