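import Pool.Agent.Lib.HSC.Defs

/-!
# HSC / Pt: the pointwise dual inequality

PROOF IN WORDS. `hK n w hw0 hw` gives `P` on `Fin n → (Fin m → ℝ)` with marginals `unif volume K` and `∑ w i • x i = 0` a.e. The integral of `g i (w i • x, t i)` over `unif volume K` is that of `g i (w i • x i, t i)` over `P` (`integral_map`), the sum of the integrals is the integral of the sum (bounded continuous on the compact `K`: model `join_core` in `WM/JoinCore.lean`, part `hpt`), and the integrand is nonnegative a.e.
-/

set_option autoImplicit false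

open MeasureTheory Set
open scoped ENNReal

namespace Pool.Agent.Lib.HSC

open Pool.Agent.Lib.MP_a34d76_pr.WM

theorem pt {m n : ℕ} {δ : ℝ} {K : Set (Fin m → ℝ)} (hKc : IsCompact K) (hK : WMix δ (unif volume K))
    (t w : Fin n → ℝ) (hw0 : ∀ i, 0 ≤ w i) (hw : ∀ i, δ * w i ≤ ∑ k, w k)
    (g : Fin n → (Fin m → ℝ) × ℝ → ℝ) (hgc : ∀ i, Continuous (g i))
    (hg : ∀ x : Fin n → (Fin m → ℝ), (∀ i, x i ∈ K) → ∑ i, w i • x i = 0 → 0 ≤ ∑ i, g i (w i • x i, t i)) :
    0 ≤ ∑ i, ∫ x, g i (w i • x, t i) ∂(unif volume K) := by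
  obtain ⟨P, hP, hPm, hP0⟩ := hK n w hw0 hw
  have hKae : ∀ᵐ x ∂(unif volume K : Measure (Fin m → ℝ)), x ∈ K := by
    unfold unif
    exact Measure.ae_smul_measure (ae_restrict_mem hKc.measurableSet) _
  have hX : ∀ i, ∀ᵐ x ∂P, x i ∈ K := by
    intro i
    have e2 := hKae
    rw [← hPm i] at e2
    exact ae_of_ae_map (measurable_pi_apply i).aemeasurable e2
  have hc : ∀ i, Continuous fun x : Fin m → ℝ => g i (w i • x, t i) := by
    intro i
    exact (hgc i).comp ((continuous_const_smul (w i)).prodMk continuous_const)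
  have hint : ∀ i, Integrable (fun x : Fin n → (Fin m → ℝ) => g i (w i • x i, t i)) P := by
    intro i
    obtain ⟨C, hC⟩ := hKc.exists_bound_of_continuousOn (hc i).continuousOn
    refine Integrable.of_bound ((hc i).comp (continuous_apply i)).aestronglyMeasurable C ?_
    filter_upwards [hX i] with x hx using hC (x i) hx
  have hval : ∀ i, ∫ x, g i (w i • x, t i) ∂(unif volume K) =
      ∫ x : Fin n → (Fin m → ℝ), g i (w i • x i, t i) ∂P := by
    intro i
    rw [← hPm i, integral_map (measurable_pi_apply i).aemeasurable (hc i).aestronglyMeasurable]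
  simp only [hval]
  rw [← integral_finsetSum _ fun i _ => hint i]
  refine integral_nonneg_of_ae ?_
  filter_upwards [ae_all_iff.2 hX, hP0] with x hx hx0 using hg x hx hx0

end Pool.Agent.Lib.HSC
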