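import Pool.Agent.Lib.HSC.Law
import Pool.Agent.Lib.HSC.Hgt
import Pool.Agent.Lib.HSC.Pt

/-!
# HSC / Core

PROOF IN WORDS. MODEL `join_core` in `WM/JoinCore.lean`. `exists_coupling_w` (`WM/Duality.lean`) with `w = 1`, `Q` = the image of `unif volume (secSet h K)` under `z ↦ z - (0, mean m h)`, `D` = the image of the compact set `secSet h K`. For `g` as in the criterion put `H i u = ∫ x, g i (h u • x, u - mean) d(unif K)`, continuous in `u` (`continuous_parametric_integral_of_continuous`). By `law`, `heights`: `∫ g i dQ = ∫ H i (u i) dσ`, and `∑ i, H i (u i) ≥ 0` for almost every `u` by `pt` with `w i = h (u i)`, `t i = u i - mean`.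
-/

set_option autoImplicit false

open MeasureTheory Set
open scoped ENNReal

namespace Pool.Agent.Lib.HSC

open Pool.Agent.Lib.MP_a34d76_pr.WM

private theorem core_compact {m : ℕ} {h : ℝ → ℝ} (hc : Continuous h) {K : Set (Fin m → ℝ)}
    (hKc : IsCompact K) : IsCompact (secSet h K) := by
  have e : secSet h K = (fun w : ℝ × (Fin m → ℝ) => ((h w.1 • w.2, w.1) : (Fin m → ℝ) × ℝ)) ''
      (Icc (0 : ℝ) 1 ×ˢ K) := by
    ext z
    constructor
    · rintro ⟨u, hu, x, hx, rfl⟩
      exact ⟨(u, x), ⟨hu, hx⟩, rfl⟩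
    · rintro ⟨⟨u, x⟩, ⟨hu, hx⟩, rfl⟩
      exact ⟨u, hu, x, hx, rfl⟩
  rw [e]
  refine (isCompact_Icc.prod hKc).image ?_
  have h1 : Continuous fun w : ℝ × (Fin m → ℝ) => h w.1 := hc.comp continuous_fst
  exact (h1.smul continuous_snd).prodMk continuous_fst

theorem core {m n : ℕ} (hm : 1 ≤ m) (hn : m + 2 ≤ n) {δ : ℝ} {h : ℝ → ℝ} (hc : Continuous h)
    (hconc : ConcaveOn ℝ (Icc (0 : ℝ) 1) h) (h0 : ∀ u ∈ Icc (0 : ℝ) 1, 0 ≤ h u)
    (hpos : ∀ u ∈ Ioo (0 : ℝ) 1, 0 < h u) {K : Set (Fin m → ℝ)} (hKc : IsCompact K) (hK0 : volume K ≠ 0)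
    (hK : WMix δ (unif volume K))
    (hw : ∀ u : Fin n → ℝ, (∀ i, u i ∈ Icc (0 : ℝ) 1) → ∑ i, u i = n * mean m h →
      ∀ i, δ * h (u i) ≤ ∑ k, h (u k)) :
    ∃ P : Measure (Fin n → (Fin m → ℝ) × ℝ), IsProbabilityMeasure P ∧
      (∀ i, P.map (fun x => x i) = unif volume (secSet h K)) ∧
      ∃ c : (Fin m → ℝ) × ℝ, ∀ᵐ x ∂P, ∑ i, x i = c := by
  have hn0 : 0 < n := by omega
  have hSc := core_compact hc hKc
  have hPK : IsProbabilityMeasure (unif volume K) := isProb_unif hK0 hKc.measure_lt_top.ne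
  have hPS : IsProbabilityMeasure (unif volume (secSet h K)) :=
    isProb_unif (vol_ne hc hpos hKc hK0) hSc.measure_lt_top.ne
  have hKm : ∀ᵐ x ∂(unif volume K), x ∈ K :=
    (Measure.ae_smul_measure (ae_restrict_mem hKc.measurableSet) _)
  have hSm : ∀ᵐ x ∂(unif volume (secSet h K)), x ∈ secSet h K :=
    (Measure.ae_smul_measure (ae_restrict_mem hSc.measurableSet) _)
  obtain ⟨a, ha⟩ : ∃ a : ℝ, a = mean m h := ⟨_, rfl⟩
  obtain ⟨e, he⟩ : ∃ e : (Fin m → ℝ) × ℝ, e = (0, a) := ⟨_, rfl⟩
  have hTc : Continuous fun z : (Fin m → ℝ) × ℝ => z - e := continuous_id.sub continuous_const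
  have hTm : Measurable fun z : (Fin m → ℝ) × ℝ => z - e := hTc.measurable
  have hDc : IsCompact ((fun z : (Fin m → ℝ) × ℝ => z - e) '' secSet h K) := hSc.image hTc
  have hPQ : IsProbabilityMeasure ((unif volume (secSet h K)).map fun z => z - e) :=
    Measure.isProbabilityMeasure_map hTm.aemeasurable
  have hQm : ∀ᵐ x ∂((unif volume (secSet h K)).map fun z => z - e),
      x ∈ (fun z : (Fin m → ℝ) × ℝ => z - e) '' secSet h K := by
    refine (ae_map_iff hTm.aemeasurable hDc.measurableSet).2 ?_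
    filter_upwards [hSm] with z hz using ⟨z, hz, rfl⟩
  obtain ⟨σ, hσ, hσ1, hσ2⟩ := heights hm hn hc hconc h0 hpos
  rw [← ha] at hσ1
  obtain ⟨P, hP, hPm, hP0⟩ := exists_coupling_w hn0 (fun _ : Fin n => (1 : ℝ)) hDc hQm (by
    intro g hg
    obtain ⟨H, hH⟩ : ∃ H : Fin n → ℝ → ℝ, ∀ i u, H i u = ∫ x, g i (h u • x, u - a) ∂(unif volume K) :=
      ⟨fun i u => ∫ x, g i (h u • x, u - a) ∂(unif volume K), fun i u => rfl⟩
    have hHc : ∀ i, Continuous (H i) := by
      intro i
      have e0 : (unif volume K).restrict K = unif volume K := Measure.restrict_eq_self_of_ae_mem hKm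
      have e1 : H i = fun u => ∫ x in K, g i (h u • x, u - a) ∂(unif volume K) := by
        funext u
        rw [hH, e0]
      rw [e1]
      refine continuous_parametric_integral_of_continuous ?_ hKc
      refine (g i).continuous.comp ?_
      have h1 : Continuous fun w : ℝ × (Fin m → ℝ) => h w.1 := hc.comp continuous_fst
      exact (h1.smul continuous_snd).prodMk (continuous_fst.sub continuous_const)
    have hpt : ∀ u : Fin n → ℝ, (∀ i, u i ∈ Icc (0 : ℝ) 1) → ∑ i, u i = n * a →
        0 ≤ ∑ i, H i (u i) := by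
      intro u hu hus
      simp only [hH]
      refine pt hKc hK (fun i => u i - a) (fun i => h (u i)) (fun i => h0 _ (hu i))
        (hw u hu (by rw [hus, ha])) (fun i => g i) (fun i => (g i).continuous) ?_
      intro x hx hx0
      refine hg (fun i => (h (u i) • x i, u i - a)) (fun i => ?_) ?_
      · exact ⟨(h (u i) • x i, u i), ⟨u i, hu i, x i, hx i, rfl⟩, by simp [he]⟩
      · simp only [one_smul]
        refine Prod.ext ?_ ?_
        · rw [Prod.fst_sum]
          exact hx0
        · rw [Prod.snd_sum]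
          simp only [Prod.snd_zero]
          rw [Finset.sum_sub_distrib, hus, Finset.sum_const, Finset.card_univ, Fintype.card_fin, nsmul_eq_mul, sub_self]
    have hmass : 0 < mass m h := mass_pos m hc hpos
    have hsum : ∀ i, ∫ z, g i z ∂((unif volume (secSet h K)).map fun z => z - e) = ∫ u, H i (u i) ∂σ := by
      intro i
      rw [integral_map hTm.aemeasurable (g i).continuous.aestronglyMeasurable]
      have e1 := law hc hpos hKc hK0 (fun z => g i (z - e)) ((g i).continuous.comp hTc)
      have e2 := hσ2 i (H i) (hHc i)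
      have e3 : ∀ u : ℝ, ∫ x, (fun z => g i (z - e)) (h u • x, u) ∂(unif volume K) = H i u := by
        intro u
        rw [hH]
        simp [he]
      simp only [e3] at e1
      rw [← e2] at e1
      exact mul_left_cancel₀ hmass.ne' e1
    have hint : ∀ i, Integrable (fun u : Fin n → ℝ => H i (u i)) σ := by
      intro i
      obtain ⟨C, hC⟩ := isCompact_Icc.exists_bound_of_continuousOn
        (s := Icc (0 : ℝ) 1) (hHc i).continuousOn
      refine Integrable.of_bound ((hHc i).comp (continuous_apply i)).aestronglyMeasurable C ?_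
      filter_upwards [hσ1] with u hu using hC _ (hu.1 i)
    simp only [hsum]
    rw [← integral_finsetSum _ fun i _ => hint i]
    refine integral_nonneg_of_ae ?_
    filter_upwards [hσ1] with u hu using hpt u hu.1 hu.2)
  have hfm : Measurable fun x : Fin n → (Fin m → ℝ) × ℝ => fun i => x i + e :=
    (continuous_pi fun i => (continuous_apply i).add continuous_const).measurable
  refine ⟨P.map (fun x => fun i => x i + e), Measure.isProbabilityMeasure_map hfm.aemeasurable,
    fun i => ?_, (n : ℝ) • e, ?_⟩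
  · rw [Measure.map_map (measurable_pi_apply i) hfm]
    have e1 : (fun x : Fin n → (Fin m → ℝ) × ℝ => x i) ∘ (fun x : Fin n → (Fin m → ℝ) × ℝ =>
        fun i => x i + e) = (fun z => z + e) ∘ fun x : Fin n → (Fin m → ℝ) × ℝ => x i := rfl
    rw [e1, ← Measure.map_map (measurable_add_const e) (measurable_pi_apply i), hPm i,
      Measure.map_map (measurable_add_const e) hTm]
    have e2 : ((fun z : (Fin m → ℝ) × ℝ => z + e) ∘ fun z : (Fin m → ℝ) × ℝ => z - e) = id := by
      funext z
      simp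
    rw [e2, Measure.map_id]
  · rw [ae_map_iff hfm.aemeasurable (measurableSet_eq_fun (by fun_prop) measurable_const)]
    filter_upwards [hP0] with x hx
    simp only [one_smul] at hx
    rw [Finset.sum_add_distrib, hx, zero_add, Finset.sum_const, Finset.card_univ, Fintype.card_fin,
      Nat.cast_smul_eq_nsmul]

end Pool.Agent.Lib.HSC
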