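import Mathlib
import Pool.Agent.Lib.MP_a34d76_pr.WM.Gen
import Pool.Agent.Lib.MP_a34d76_pr.OneDimProjectionsResult

/-!
# HSC / Defs: bodies with homothetic sections (MP_a34d76_pr)
-/

set_option autoImplicit false

open MeasureTheory Set

namespace Pool.Agent.Lib.HSC

/-- the body in `ℝ^m × ℝ` whose section at height `u ∈ [0,1]` is `h u • K` -/
def secSet {m : ℕ} (h : ℝ → ℝ) (K : Set (Fin m → ℝ)) : Set ((Fin m → ℝ) × ℝ) :=
  {z | ∃ u ∈ Icc (0 : ℝ) 1, ∃ x ∈ K, z = (h u • x, u)}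

/-- the total mass of the profile -/
noncomputable def mass (m : ℕ) (h : ℝ → ℝ) : ℝ := ∫ u in (0 : ℝ)..1, h u ^ m

/-- the mean height -/
noncomputable def mean (m : ℕ) (h : ℝ → ℝ) : ℝ := (∫ u in (0 : ℝ)..1, h u ^ m * u) / mass m h

end Pool.Agent.Lib.HSC
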