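import Pool.Agent.Lib.HSC.Defs

/-!
# HSC / Mean

PROOF IN WORDS. Antitone: `∫_0^1 h^m (1/2 - u) du ≥ 0` since `(h(u)^m - h(1/2)^m) (1/2 - u) ≥ 0` pointwise on `[0,1]` and `∫_0^1 (1/2 - u) = 0`. Divide by `mass`. Monotone: the same with the other sign.
-/

set_option autoImplicit false

open MeasureTheory Set

namespace Pool.Agent.Lib.HSC

private lemma key_int {g : ℝ → ℝ} (hg : Continuous g) (c : ℝ) :
    ∫ u in (0 : ℝ)..1, (g u - c) * (1 / 2 - u)
      = 1 / 2 * (∫ u in (0 : ℝ)..1, g u) - ∫ u in (0 : ℝ)..1, g u * u := by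
  have e : ∀ u : ℝ, (g u - c) * (1 / 2 - u) = (1 / 2 * g u - g u * u) - c * (1 / 2 - u) := by
    intro u; ring
  have hz : ∫ u in (0 : ℝ)..1, ((1 : ℝ) / 2 - u) = 0 := by
    have j1 : IntervalIntegrable (fun _ : ℝ => (1 : ℝ) / 2) volume 0 1 :=
      continuous_const.intervalIntegrable _ _
    have j2 : IntervalIntegrable (fun u : ℝ => u) volume 0 1 :=
      continuous_id.intervalIntegrable _ _
    rw [intervalIntegral.integral_sub j1 j2, integral_id, intervalIntegral.integral_const]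
    norm_num
  have i1 : IntervalIntegrable (fun u : ℝ => 1 / 2 * g u) volume 0 1 :=
    (by fun_prop : Continuous fun u : ℝ => 1 / 2 * g u).intervalIntegrable _ _
  have i2 : IntervalIntegrable (fun u : ℝ => g u * u) volume 0 1 :=
    (by fun_prop : Continuous fun u : ℝ => g u * u).intervalIntegrable _ _
  have i3 : IntervalIntegrable (fun u : ℝ => c * (1 / 2 - u)) volume 0 1 :=
    (by fun_prop : Continuous fun u : ℝ => c * (1 / 2 - u)).intervalIntegrable _ _
  simp_rw [e]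
  rw [intervalIntegral.integral_sub (i1.sub i2) i3, intervalIntegral.integral_sub i1 i2,
    intervalIntegral.integral_const_mul, intervalIntegral.integral_const_mul, hz]
  ring

theorem mean_le {m : ℕ} {h : ℝ → ℝ} (hc : Continuous h) (h0 : ∀ u ∈ Icc (0 : ℝ) 1, 0 ≤ h u)
    (ha : AntitoneOn h (Icc (0 : ℝ) 1)) (hmass : 0 < mass m h) : mean m h ≤ 1 / 2 := by
  have hh : (1 / 2 : ℝ) ∈ Icc (0 : ℝ) 1 := by constructor <;> norm_num
  have h1 : 0 ≤ ∫ u in (0 : ℝ)..1, (h u ^ m - h (1 / 2) ^ m) * (1 / 2 - u) := by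
    apply intervalIntegral.integral_nonneg zero_le_one
    intro u hu
    rcases le_total u (1 / 2) with h' | h'
    · exact mul_nonneg (sub_nonneg.2 (pow_le_pow_left₀ (h0 _ hh) (ha hu hh h') m)) (sub_nonneg.2 h')
    · exact mul_nonneg_of_nonpos_of_nonpos
        (sub_nonpos.2 (pow_le_pow_left₀ (h0 _ hu) (ha hh hu h') m)) (sub_nonpos.2 h')
  rw [key_int (g := fun u => h u ^ m) (hc.pow m)] at h1
  unfold mean
  rw [div_le_iff₀ hmass]
  unfold mass
  linarith

theorem le_mean {m : ℕ} {h : ℝ → ℝ} (hc : Continuous h) (h0 : ∀ u ∈ Icc (0 : ℝ) 1, 0 ≤ h u)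
    (ha : MonotoneOn h (Icc (0 : ℝ) 1)) (hmass : 0 < mass m h) : 1 / 2 ≤ mean m h := by
  have hh : (1 / 2 : ℝ) ∈ Icc (0 : ℝ) 1 := by constructor <;> norm_num
  have h1 : ∫ u in (0 : ℝ)..1, (h u ^ m - h (1 / 2) ^ m) * (1 / 2 - u) ≤ 0 := by
    have : 0 ≤ ∫ u in (0 : ℝ)..1, -((h u ^ m - h (1 / 2) ^ m) * (1 / 2 - u)) := by
      apply intervalIntegral.integral_nonneg zero_le_one
      intro u hu
      rw [neg_nonneg]
      rcases le_total u (1 / 2) with h' | h'
      · exact mul_nonpos_of_nonpos_of_nonneg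
          (sub_nonpos.2 (pow_le_pow_left₀ (h0 _ hu) (ha hu hh h') m)) (sub_nonneg.2 h')
      · exact mul_nonpos_of_nonneg_of_nonpos
          (sub_nonneg.2 (pow_le_pow_left₀ (h0 _ hh) (ha hh hu h') m)) (sub_nonpos.2 h')
    rw [intervalIntegral.integral_neg] at this
    linarith
  rw [key_int (g := fun u => h u ^ m) (hc.pow m)] at h1
  unfold mean
  rw [le_div_iff₀ hmass]
  unfold mass
  linarith

end Pool.Agent.Lib.HSC
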