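import Pool.Agent.Lib.HSC.Defs

/-!
# HSC / Shf: an affine profile over a translate

PROOF IN WORDS. The affine bijection `(y, u) ↦ (y + (p + q u) • c, u)` maps `(h u • (x - c), u)` to `(h u • x, u)` when `h u = p + q u` on `[0,1]`. MODEL `shearL`, `shearA`, `joinSet_shear` in `WM/Gen.lean`.
-/

set_option autoImplicit false

open MeasureTheory Set

namespace Pool.Agent.Lib.HSC

private noncomputable def shL {m : ℕ} (q : ℝ) (c : Fin m → ℝ) :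
    ((Fin m → ℝ) × ℝ) ≃ₗ[ℝ] ((Fin m → ℝ) × ℝ) where
  toFun z := (z.1 + (q * z.2) • c, z.2)
  invFun z := (z.1 - (q * z.2) • c, z.2)
  left_inv z := by ext <;> simp
  right_inv z := by ext <;> simp
  map_add' z w := by
    ext <;> simp
    ring
  map_smul' r z := by
    ext <;> simp
    ring

private noncomputable def shA {m : ℕ} (p q : ℝ) (c : Fin m → ℝ) :
    ((Fin m → ℝ) × ℝ) ≃ᵃ[ℝ] ((Fin m → ℝ) × ℝ) :=
  (shL q c).toAffineEquiv.trans (AffineEquiv.constVAdd ℝ _ (p • c, 0))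

private lemma shA_apply {m : ℕ} (p q : ℝ) (c : Fin m → ℝ) (z : (Fin m → ℝ) × ℝ) :
    shA p q c z = (z.1 + (p + q * z.2) • c, z.2) := by
  have : shA p q c z = (p • c, (0 : ℝ)) + (z.1 + (q * z.2) • c, z.2) := rfl
  rw [this, Prod.mk_add_mk, zero_add, add_smul]
  congr 1
  abel

theorem shift {m : ℕ} {h : ℝ → ℝ} (p q : ℝ) (hh : ∀ u ∈ Icc (0 : ℝ) 1, h u = p + q * u)
    (K : Set (Fin m → ℝ)) (c : Fin m → ℝ) :
    ∃ B : ((Fin m → ℝ) × ℝ) ≃ᵃ[ℝ] ((Fin m → ℝ) × ℝ), B '' secSet h ((fun x => x - c) '' K) = secSet h K := by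
  refine ⟨shA p q c, ?_⟩
  ext z
  constructor
  · rintro ⟨w, ⟨u, hu, x', ⟨x, hx, rfl⟩, rfl⟩, rfl⟩
    refine ⟨u, hu, x, hx, ?_⟩
    rw [shA_apply, ← hh u hu, smul_sub, sub_add_cancel]
  · rintro ⟨u, hu, x, hx, rfl⟩
    refine ⟨(h u • (x - c), u), ⟨u, hu, x - c, ⟨x, hx, rfl⟩, rfl⟩, ?_⟩
    rw [shA_apply, ← hh u hu, smul_sub, sub_add_cancel]

end Pool.Agent.Lib.HSC
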