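import Pool.Agent.Lib.HSC.Defs

/-!
# HSC / Tr: transfer of a coupling to an affine image and to a set with the same closure
-/

set_option autoImplicit false

open MeasureTheory Set
open scoped ENNReal

namespace Pool.Agent.Lib.HSC

open Pool.Agent.Lib.MP_a34d76_pr.WM

theorem transfer {m n : ℕ} {S : Set ((Fin m → ℝ) × ℝ)} (A : ((Fin m → ℝ) × ℝ) ≃ᵃ[ℝ] (Fin (m + 1) → ℝ))
    (hS : ∃ P : Measure (Fin n → (Fin m → ℝ) × ℝ), IsProbabilityMeasure P ∧
      (∀ i, P.map (fun x => x i) = unif volume S) ∧ ∃ c : (Fin m → ℝ) × ℝ, ∀ᵐ x ∂P, ∑ i, x i = c)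
    {C : Set (Fin (m + 1) → ℝ)} (hC : Convex ℝ C) (hcl : closure C = A '' S) :
    ∃ P : Measure (Fin n → (Fin (m + 1) → ℝ)), IsProbabilityMeasure P ∧
      (∀ i : Fin n, P.map (fun x : Fin n → (Fin (m + 1) → ℝ) => x i) = (volume C)⁻¹ • volume.restrict C) ∧
      ∃ c : Fin (m + 1) → ℝ, ∀ᵐ x ∂P, (∑ i, x i) = c := by
  obtain ⟨P, hP1, hP2, c, hP3⟩ := hS
  have hH : (volume : Measure ((Fin m → ℝ) × ℝ)).IsAddHaarMeasure :=
    Measure.prod.instIsAddHaarMeasure _ _
  have hae : closure C =ᵐ[volume] C := by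
    refine (ae_le_set.2 ?_).antisymm subset_closure.eventuallyLE
    refine measure_mono_null ?_ (hC.addHaar_frontier volume)
    intro x hx
    exact ⟨hx.1, fun h => hx.2 (interior_subset h)⟩
  have hu : unif volume (closure C) = (volume C)⁻¹ • volume.restrict C := by
    rw [unif, measure_congr hae, Measure.restrict_congr_set hae]
  have hA : Measurable (A : (Fin m → ℝ) × ℝ → (Fin (m + 1) → ℝ)) :=
    (affine_measurableEmbedding A).measurable
  have hT : Measurable fun (x : Fin n → (Fin m → ℝ) × ℝ) (i : Fin n) => A (x i) :=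
    measurable_pi_lambda _ fun i => hA.comp (measurable_pi_apply i)
  refine ⟨P.map fun x i => A (x i), Measure.isProbabilityMeasure_map hT.aemeasurable,
    fun i => ?_, A.linear c + n • A 0, ?_⟩
  · rw [Measure.map_map (measurable_pi_apply i) hT]
    change P.map ((fun y => A y) ∘ fun x : Fin n → (Fin m → ℝ) × ℝ => x i) = _
    rw [← Measure.map_map hA (measurable_pi_apply i), hP2 i, ← hu, hcl]
    exact unif_map volume volume A S
  · refine (ae_map_iff (p := fun x : Fin n → Fin (m + 1) → ℝ => (∑ i, x i) = A.linear c + n • A 0)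
      hT.aemeasurable (measurableSet_eq_fun (by fun_prop) measurable_const)).2 ?_
    filter_upwards [hP3] with x hx
    have h0 : ∀ y : (Fin m → ℝ) × ℝ, A y = A.linear y + A 0 := by
      intro y
      have h3 := A.map_vadd 0 y
      simp only [vadd_eq_add, add_zero] at h3
      exact h3
    have h1 : ∑ i, A (x i) = ∑ i, (A.linear (x i) + A 0) := Finset.sum_congr rfl fun i _ => h0 _
    rw [h1, Finset.sum_add_distrib, ← map_sum, hx]
    simp

end Pool.Agent.Lib.HSC
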