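import Pool.Agent.Lib.HSC.Core
import Pool.Agent.Lib.HSC.Aff
import Pool.Agent.Lib.HSC.Mean
import Pool.Agent.Lib.HSC.Tr
import Pool.Agent.Lib.HSC.Shf
import Pool.Agent.Lib.HSC.Cen

/-!
# HSC / Fin: assembly
-/

set_option autoImplicit false

open MeasureTheory Set

namespace Pool.Agent.Lib.HSC

open Pool.Agent.Lib.MP_a34d76_pr.WM

/-- a continuous profile on `ℝ` with the same values on `[0,1]` -/
theorem exists_ext {h : ℝ → ℝ} (hc : ContinuousOn h (Icc (0 : ℝ) 1)) :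
    ∃ h' : ℝ → ℝ, Continuous h' ∧ ∀ u ∈ Icc (0 : ℝ) 1, h' u = h u := by
  refine ⟨fun u => h (max 0 (min u 1)), ?_, ?_⟩
  · refine hc.comp_continuous (by fun_prop) fun u => ?_
    exact ⟨le_max_left _ _, max_le zero_le_one (min_le_right _ _)⟩
  · intro u hu
    simp only
    rw [min_eq_left hu.2, max_eq_right hu.1]

theorem secSet_congr {m : ℕ} {h h' : ℝ → ℝ} (hh : ∀ u ∈ Icc (0 : ℝ) 1, h' u = h u) (K : Set (Fin m → ℝ)) :
    secSet h' K = secSet h K := by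
  ext z
  constructor
  · rintro ⟨u, hu, x, hx, rfl⟩
    exact ⟨u, hu, x, hx, by rw [hh u hu]⟩
  · rintro ⟨u, hu, x, hx, rfl⟩
    exact ⟨u, hu, x, hx, by rw [hh u hu]⟩

theorem mean_congr {m : ℕ} {h h' : ℝ → ℝ} (hh : ∀ u ∈ Icc (0 : ℝ) 1, h' u = h u) : mean m h' = mean m h := by
  have e1 : ∀ f : ℝ → ℝ, ∫ u in (0 : ℝ)..1, h' u ^ m * f u = ∫ u in (0 : ℝ)..1, h u ^ m * f u := by
    intro f
    refine intervalIntegral.integral_congr fun u hu => ?_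
    rw [uIcc_of_le zero_le_one] at hu
    simp only [hh u hu]
  have e2 : mass m h' = mass m h := by
    have := e1 fun _ => 1
    simpa [mass] using this
  rw [mean, mean, e1 fun u => u, e2]

/-- the chord condition -/
theorem mixable_chord {m n N : ℕ} (hm : 1 ≤ m) (hn : m + 2 ≤ n) {h : ℝ → ℝ} (hc : Continuous h)
    (hconc : ConcaveOn ℝ (Icc (0 : ℝ) 1) h) (h0 : ∀ u ∈ Icc (0 : ℝ) 1, 0 ≤ h u)
    (hpos : ∀ u ∈ Ioo (0 : ℝ) 1, 0 < h u) {K : Set (Fin m → ℝ)} (hKc : IsCompact K) (hK0 : volume K ≠ 0)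
    (hK : WMix (N : ℝ) (unif volume K))
    (hd : ∀ u ∈ Icc (0 : ℝ) 1, N * h u ≤ n * ((1 - mean m h) * h 0 + mean m h * h 1)) :
    ∃ P : Measure (Fin n → (Fin m → ℝ) × ℝ), IsProbabilityMeasure P ∧
      (∀ i, P.map (fun x => x i) = unif volume (secSet h K)) ∧
      ∃ c : (Fin m → ℝ) × ℝ, ∀ᵐ x ∂P, ∑ i, x i = c :=
  core hm hn hc hconc h0 hpos hKc hK0 hK fun u hu hs i =>
    (hd _ (hu i)).trans (chord hconc _ u hu hs)

/-- monotone profiles -/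
theorem chord_mono {m n N : ℕ} {h : ℝ → ℝ} (hc : Continuous h) (h0 : ∀ u ∈ Icc (0 : ℝ) 1, 0 ≤ h u)
    (hmass : 0 < mass m h) (hmon : MonotoneOn h (Icc (0 : ℝ) 1) ∨ AntitoneOn h (Icc (0 : ℝ) 1))
    (hr : ∀ u ∈ Icc (0 : ℝ) 1, ∀ v ∈ Icc (0 : ℝ) 1, (2 * N - n) * h u ≤ n * h v) :
    ∀ u ∈ Icc (0 : ℝ) 1, N * h u ≤ n * ((1 - mean m h) * h 0 + mean m h * h 1) := by
  intro u hu
  have m0 : (0 : ℝ) ∈ Icc (0 : ℝ) 1 := by simp
  have m1 : (1 : ℝ) ∈ Icc (0 : ℝ) 1 := by simp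
  have hn0 : (0 : ℝ) ≤ n := Nat.cast_nonneg n
  have hN0 : (0 : ℝ) ≤ N := Nat.cast_nonneg N
  rcases hmon with hmon | hmon
  · have h1 := hmon hu m1 hu.2
    have h2 := hmon m0 m1 zero_le_one
    have h3 := le_mean hc h0 hmon hmass
    have h4 := hr 1 m1 0 m0
    have h5 : (N : ℝ) * h u ≤ N * h 1 := mul_le_mul_of_nonneg_left h1 hN0
    have h6 : 0 ≤ (n : ℝ) * ((mean m h - 1 / 2) * (h 1 - h 0)) :=
      mul_nonneg hn0 (mul_nonneg (by linarith) (by linarith))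
    nlinarith
  · have h1 := hmon m0 hu hu.1
    have h2 := hmon m0 m1 zero_le_one
    have h3 := mean_le hc h0 hmon hmass
    have h4 := hr 0 m0 1 m1
    have h5 : (N : ℝ) * h u ≤ N * h 0 := mul_le_mul_of_nonneg_left h1 hN0
    have h6 : 0 ≤ (n : ℝ) * ((1 / 2 - mean m h) * (h 0 - h 1)) :=
      mul_nonneg hn0 (mul_nonneg (by linarith) (by linarith))
    nlinarith

/-- profiles bounded below by a multiple of their maximum -/
theorem mixable_ratio {m n N : ℕ} (hm : 1 ≤ m) (hn : m + 2 ≤ n) {h : ℝ → ℝ} (hc : Continuous h)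
    (hconc : ConcaveOn ℝ (Icc (0 : ℝ) 1) h) (h0 : ∀ u ∈ Icc (0 : ℝ) 1, 0 ≤ h u)
    (hpos : ∀ u ∈ Ioo (0 : ℝ) 1, 0 < h u) {K : Set (Fin m → ℝ)} (hKc : IsCompact K) (hK0 : volume K ≠ 0)
    (hK : WMix (N : ℝ) (unif volume K))
    (hb : ∀ u ∈ Icc (0 : ℝ) 1, ∀ v ∈ Icc (0 : ℝ) 1, (N - 1) * h u ≤ (n - 1) * h v) :
    ∃ P : Measure (Fin n → (Fin m → ℝ) × ℝ), IsProbabilityMeasure P ∧
      (∀ i, P.map (fun x => x i) = unif volume (secSet h K)) ∧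
      ∃ c : (Fin m → ℝ) × ℝ, ∀ᵐ x ∂P, ∑ i, x i = c := by
  refine core hm hn hc hconc h0 hpos hKc hK0 hK fun u hu hs i => ?_
  have hn1 : (0 : ℝ) < n - 1 := by
    have : (3 : ℝ) ≤ n := by exact_mod_cast (by omega : 3 ≤ n)
    linarith
  have h1 : ∀ k ∈ Finset.univ.erase i, (N - 1) * h (u i) / (n - 1) ≤ h (u k) := by
    intro k _
    rw [div_le_iff₀ hn1, mul_comm (h (u k))]
    exact hb _ (hu i) _ (hu k)
  have h2 := Finset.card_nsmul_le_sum _ _ _ h1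
  rw [Finset.card_erase_of_mem (Finset.mem_univ i), Finset.card_univ, Fintype.card_fin, nsmul_eq_mul,
    Nat.cast_sub (by omega), Nat.cast_one, mul_div_cancel₀ _ hn1.ne'] at h2
  have h3 := Finset.add_sum_erase Finset.univ (fun k => h (u k)) (Finset.mem_univ i)
  linarith

/-- the affine case -/
theorem mixable_affine {m n N : ℕ} (hm : 1 ≤ m) (hn : m + 2 ≤ n) {h : ℝ → ℝ} (hc : Continuous h)
    (hconc : ConcaveOn ℝ (Icc (0 : ℝ) 1) h) (h0 : ∀ u ∈ Icc (0 : ℝ) 1, 0 ≤ h u)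
    (hpos : ∀ u ∈ Ioo (0 : ℝ) 1, 0 < h u) {K : Set (Fin m → ℝ)} (hK : Gen m K N) (p q : ℝ)
    (hh : ∀ u ∈ Icc (0 : ℝ) 1, h u = p + q * u) :
    ∃ c : Fin m → ℝ, ∃ P : Measure (Fin n → (Fin m → ℝ) × ℝ), IsProbabilityMeasure P ∧
      (∀ i, P.map (fun x => x i) = unif volume (secSet h ((fun x => x - c) '' K))) ∧
      ∃ c : (Fin m → ℝ) × ℝ, ∀ᵐ x ∂P, ∑ i, x i = c := by
  obtain ⟨hKv, hKc, hK0, hN1, hN, c, hKm⟩ := hK.all
  have hmass := mass_pos m hc hpos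
  refine ⟨c, ?_⟩
  rw [unif_sub] at hKm
  have hKc' : IsCompact ((fun x => x - c) '' K) := hKc.image (by fun_prop)
  have hK0' : volume ((fun x => x - c) '' K) ≠ 0 := by
    rw [image_sub_eq]
    exact measure_image_ne_zero volume volume _ hK0
  refine mixable_chord hm hn hc hconc h0 hpos hKc' hK0' hKm fun u hu => ?_
  have e0 : h 0 = p := by rw [hh 0 (by simp)]; ring
  have e1 : h 1 = p + q := by rw [hh 1 (by simp)]; ring
  have hp : 0 ≤ p := by rw [← e0]; exact h0 0 (by simp)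
  have hpq : 0 ≤ p + q := by rw [← e1]; exact h0 1 (by simp)
  have h1 := affine_ineq (m := m) p q hh hp hpq hmass u hu
  have h3 := h0 _ hu
  have h4 : (N : ℝ) * h u ≤ (m + 1) * h u := by
    refine mul_le_mul_of_nonneg_right ?_ h3
    exact_mod_cast hN
  have h5 : (0 : ℝ) ≤ p + q * mean m h := by
    have h6 : (0 : ℝ) ≤ (m + 2) * (p + q * mean m h) := le_trans (by positivity) h1
    exact nonneg_of_mul_nonneg_right h6 (by positivity)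
  have h7 : ((m : ℝ) + 2) * (p + q * mean m h) ≤ n * (p + q * mean m h) := by
    refine mul_le_mul_of_nonneg_right ?_ h5
    exact_mod_cast hn
  have h8 : (1 - mean m h) * h 0 + mean m h * h 1 = p + q * mean m h := by
    rw [e0, e1]; ring
  rw [h8]
  linarith

/-- all cases, for a profile continuous on the line -/
theorem mixable_centred {m n N : ℕ} (hm : 1 ≤ m) (hn : m + 2 ≤ n) {h : ℝ → ℝ} (hc : Continuous h)
    (hconc : ConcaveOn ℝ (Icc (0 : ℝ) 1) h) (h0 : ∀ u ∈ Icc (0 : ℝ) 1, 0 ≤ h u)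
    (hpos : ∀ u ∈ Ioo (0 : ℝ) 1, 0 < h u) {K : Set (Fin m → ℝ)} (hK : Gen m K N)
    (hK0 : ∫ x in K, x = 0)
    (hcase : (∀ u ∈ Icc (0 : ℝ) 1, ∀ v ∈ Icc (0 : ℝ) 1, (N - 1) * h u ≤ (n - 1) * h v) ∨
      ((MonotoneOn h (Icc (0 : ℝ) 1) ∨ AntitoneOn h (Icc (0 : ℝ) 1)) ∧
        ∀ u ∈ Icc (0 : ℝ) 1, ∀ v ∈ Icc (0 : ℝ) 1, (2 * N - n) * h u ≤ n * h v) ∨
      (∀ u ∈ Icc (0 : ℝ) 1, N * h u ≤ n * ((1 - mean m h) * h 0 + mean m h * h 1)) ∨
      ∀ u : Fin n → ℝ, (∀ i, u i ∈ Icc (0 : ℝ) 1) → ∑ i, u i = n * mean m h →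
        ∀ i, N * h (u i) ≤ ∑ k, h (u k)) :
    ∃ P : Measure (Fin n → (Fin m → ℝ) × ℝ), IsProbabilityMeasure P ∧
      (∀ i, P.map (fun x => x i) = unif volume (secSet h K)) ∧
      ∃ c : (Fin m → ℝ) × ℝ, ∀ᵐ x ∂P, ∑ i, x i = c := by
  obtain ⟨hKv, hKc, hKv0, hN1, hN, c, hKm⟩ := hK.all
  have hc0 : c = 0 := centre hKc hKv0 hN1 hKm hK0
  rw [hc0] at hKm
  simp only [sub_zero, Measure.map_id'] at hKm
  rcases hcase with hb | ⟨hmon, hr⟩ | hd | he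
  · exact mixable_ratio hm hn hc hconc h0 hpos hKc hKv0 hKm hb
  · exact mixable_chord hm hn hc hconc h0 hpos hKc hKv0 hKm
      (chord_mono hc h0 (mass_pos m hc hpos) hmon hr)
  · exact mixable_chord hm hn hc hconc h0 hpos hKc hKv0 hKm hd
  · exact core hm hn hc hconc h0 hpos hKc hKv0 hKm he

end Pool.Agent.Lib.HSC
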