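import Pool.Agent.Lib.HSC.Defs

/-!
# HSC / Fub

MODEL: `integral_joinSet`, `isCompact_joinSet` in `Lib/MP_a34d76_pr/WM/C3.lean` (lines 19-128): the same proof, simpler (no second factor, no `prodAssoc`): the set is the compact image of `Icc 0 1 ×ˢ K`; `integral_prod_symm`; for `u` in the open interval the section is `h u • K` with `h u > 0` and `setIntegral_smul_set`.
-/

set_option autoImplicit false

open MeasureTheory Set
open scoped ENNReal Pointwise

namespace Pool.Agent.Lib.HSC

theorem isCompact_secSet {m : ℕ} {h : ℝ → ℝ} (hc : Continuous h) {K : Set (Fin m → ℝ)} (hK : IsCompact K) :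
    IsCompact (secSet h K) := by
  have he : secSet h K = (fun p : ℝ × (Fin m → ℝ) => ((h p.1 • p.2, p.1) : (Fin m → ℝ) × ℝ)) ''
      (Icc (0 : ℝ) 1 ×ˢ K) := by
    ext z
    constructor
    · rintro ⟨u, hu, x, hx, rfl⟩
      exact ⟨(u, x), ⟨hu, hx⟩, rfl⟩
    · rintro ⟨⟨u, x⟩, ⟨hu, hx⟩, rfl⟩
      exact ⟨u, hu, x, hx, rfl⟩
  rw [he]
  refine (isCompact_Icc.prod hK).image ?_
  exact ((hc.comp continuous_fst).smul continuous_snd).prodMk continuous_fst

private theorem fub_smul_set {k : ℕ} (K : Set (Fin k → ℝ)) {t : ℝ} (ht : 0 < t) (f : (Fin k → ℝ) → ℝ) :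
    ∫ x in t • K, f x = t ^ k * ∫ x in K, f (t • x) := by
  have h := Measure.setIntegral_comp_smul_of_pos (volume : Measure (Fin k → ℝ)) f K ht
  rw [h, Module.finrank_fin_fun, smul_eq_mul, ← mul_assoc, mul_inv_cancel₀, one_mul]
  positivity

theorem integral_secSet {m : ℕ} {h : ℝ → ℝ} (hc : Continuous h) (hpos : ∀ u ∈ Ioo (0 : ℝ) 1, 0 < h u)
    {K : Set (Fin m → ℝ)} (hK : IsCompact K) (G : (Fin m → ℝ) × ℝ → ℝ) (hG : Continuous G) :
    ∫ z in secSet h K, G z = ∫ u in (0 : ℝ)..1, h u ^ m * ∫ x in K, G (h u • x, u) := by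
  have hJ := isCompact_secSet hc hK
  set f : (Fin m → ℝ) × ℝ → ℝ := (secSet h K).indicator G with hf
  have hfi : Integrable f volume :=
    (integrable_indicator_iff hJ.measurableSet).2 (hG.continuousOn.integrableOn_compact hJ)
  rw [← integral_indicator hJ.measurableSet]
  rw [Measure.volume_eq_prod, integral_prod_symm _ (by rwa [Measure.volume_eq_prod] at hfi)]
  rw [intervalIntegral.integral_of_le zero_le_one, integral_Ioc_eq_integral_Ioo,
    ← integral_indicator measurableSet_Ioo]
  refine integral_congr_ae ?_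
  have hnull : ∀ᵐ t : ℝ, t ∉ ({0, 1} : Set ℝ) := (Set.toFinite ({0, 1} : Set ℝ)).countable.ae_notMem _
  filter_upwards [hnull] with t ht
  simp only [mem_insert_iff, mem_singleton_iff, not_or] at ht
  by_cases htI : t ∈ Ioo (0 : ℝ) 1
  · rw [indicator_of_mem htI]
    have h0 : 0 < h t := hpos t htI
    have hsec : ∀ p : Fin m → ℝ, f (p, t) = (h t • K).indicator (fun p => G (p, t)) p := by
      intro u
      by_cases hu : u ∈ h t • K
      · rw [indicator_of_mem hu]
        obtain ⟨x, hx, hx'⟩ := hu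
        have hm : ((u, t) : (Fin m → ℝ) × ℝ) ∈ secSet h K :=
          ⟨t, Ioo_subset_Icc_self htI, x, hx, by
            simp only [Prod.mk.injEq, and_true]; exact hx'.symm⟩
        rw [hf, indicator_of_mem hm]
      · rw [indicator_of_notMem hu, hf]
        refine indicator_of_notMem ?_ _
        rintro ⟨s, hs, x, hx, he⟩
        simp only [Prod.mk.injEq] at he
        obtain ⟨rfl, rfl⟩ := he
        exact hu ⟨x, hx, rfl⟩
    change ∫ p, f (p, t) = _
    simp_rw [hsec]
    have hKt : IsCompact (h t • K) := hK.smul (h t)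
    rw [integral_indicator hKt.measurableSet, fub_smul_set K h0]
  · rw [indicator_of_notMem htI]
    have htI' : t ∉ Icc (0 : ℝ) 1 := fun h => htI ⟨lt_of_le_of_ne h.1 (Ne.symm ht.1),
      lt_of_le_of_ne h.2 ht.2⟩
    have hz : ∀ p : Fin m → ℝ, f (p, t) = 0 := by
      intro u
      rw [hf]
      refine indicator_of_notMem ?_ _
      rintro ⟨s, hs, x, hx, he⟩
      simp only [Prod.mk.injEq] at he
      obtain ⟨rfl, rfl⟩ := he
      exact htI' hs
    change ∫ p, f (p, t) = _
    simp_rw [hz]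
    exact integral_zero _ _

end Pool.Agent.Lib.HSC
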