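import Pool.Agent.Lib.HSC.Defs

/-!
# HSC / Pos

PROOF IN WORDS. `pos`: take `v` with `h v > 0`; a point `u` of the open interval is a convex combination with positive weight of `v`: if `u ≤ v`, `u = (1 - s) 0 + s v` with `s = u / v > 0`, so `h u ≥ s h v > 0` (`h 0 ≥ 0`); if `u > v`, `u = (1 - s) 1 + s v` with `s = (1 - u) / (1 - v)`. `mass_pos`: `intervalIntegral.intervalIntegral_pos_of_pos_on`.
-/

set_option autoImplicit false

open MeasureTheory Set

namespace Pool.Agent.Lib.HSC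

theorem pos {h : ℝ → ℝ} (hconc : ConcaveOn ℝ (Icc (0 : ℝ) 1) h) (h0 : ∀ u ∈ Icc (0 : ℝ) 1, 0 ≤ h u)
    (hne : ∃ u ∈ Icc (0 : ℝ) 1, h u ≠ 0) : ∀ u ∈ Ioo (0 : ℝ) 1, 0 < h u := by
  obtain ⟨v, hv, hvne⟩ := hne
  have hvpos : 0 < h v := lt_of_le_of_ne (h0 v hv) (Ne.symm hvne)
  rintro u ⟨hu0, hu1⟩
  rcases le_total u v with huv | huv
  · have hv0 : 0 < v := lt_of_lt_of_le hu0 huv
    have hs0 : 0 < u / v := div_pos hu0 hv0
    have hs1 : u / v ≤ 1 := (div_le_one hv0).2 huv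
    have hz : (0 : ℝ) ∈ Icc (0 : ℝ) 1 := ⟨le_refl _, zero_le_one⟩
    have hw : 0 ≤ 1 - u / v := by linarith
    have hsum : 1 - u / v + u / v = 1 := by ring
    have h1 := hconc.2 hz hv hw hs0.le hsum
    simp only [smul_eq_mul, mul_zero, zero_add] at h1
    rw [div_mul_cancel₀ u hv0.ne'] at h1
    have h2 : 0 ≤ (1 - u / v) * h 0 := mul_nonneg (by linarith) (h0 0 ⟨le_refl _, zero_le_one⟩)
    have h3 : 0 < u / v * h v := mul_pos hs0 hvpos
    linarith
  · have hv1 : v < 1 := lt_of_le_of_lt huv hu1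
    have hd : 0 < 1 - v := by linarith
    have hs0 : 0 < (1 - u) / (1 - v) := div_pos (by linarith) hd
    have hs1 : (1 - u) / (1 - v) ≤ 1 := (div_le_one hd).2 (by linarith)
    have hz : (1 : ℝ) ∈ Icc (0 : ℝ) 1 := ⟨zero_le_one, le_refl _⟩
    have hw : 0 ≤ 1 - (1 - u) / (1 - v) := by linarith
    have hsum : 1 - (1 - u) / (1 - v) + (1 - u) / (1 - v) = 1 := by ring
    have h1 := hconc.2 hz hv hw hs0.le hsum
    simp only [smul_eq_mul, mul_one] at h1
    have he : 1 - (1 - u) / (1 - v) + (1 - u) / (1 - v) * v = u := by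
      field_simp
      ring
    rw [he] at h1
    have h2 : 0 ≤ (1 - (1 - u) / (1 - v)) * h 1 := mul_nonneg (by linarith) (h0 1 ⟨zero_le_one, le_refl _⟩)
    have h3 : 0 < (1 - u) / (1 - v) * h v := mul_pos hs0 hvpos
    linarith

theorem mass_pos (m : ℕ) {h : ℝ → ℝ} (hc : Continuous h) (hpos : ∀ u ∈ Ioo (0 : ℝ) 1, 0 < h u) :
    0 < mass m h := by
  unfold mass
  refine intervalIntegral.intervalIntegral_pos_of_pos_on ?_ (fun u hu => ?_) zero_lt_one
  · exact Continuous.intervalIntegrable (by fun_prop) _ _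
  · have := hpos u hu
    positivity

end Pool.Agent.Lib.HSC
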