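import Pool.Agent.Lib.HSC.Fub
import Pool.Agent.Lib.HSC.Pos

/-!
# HSC / Law

PROOF IN WORDS. `vol_ne`: `integral_secSet` with `G = 1` gives `(volume (secSet h K)).toReal = mass m h * (volume K).toReal > 0` (`mass_pos`; `K` compact, so of finite volume). `law`: `integral_secSet` for `g` and for `1`, `integral_smul_measure`, model `isJoin_unif` in `WM/C3.lean`.
-/

set_option autoImplicit false

open MeasureTheory Set
open scoped ENNReal Pointwise

namespace Pool.Agent.Lib.HSC

open Pool.Agent.Lib.MP_a34d76_pr.WM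

private theorem law_vol {m : ℕ} {h : ℝ → ℝ} (hc : Continuous h) (hpos : ∀ u ∈ Ioo (0 : ℝ) 1, 0 < h u)
    {K : Set (Fin m → ℝ)} (hK : IsCompact K) :
    (volume (secSet h K)).toReal = mass m h * (volume K).toReal := by
  have hvol := integral_secSet hc hpos hK (fun _ => (1 : ℝ)) continuous_const
  simp only [integral_const, MeasurableSet.univ, measureReal_restrict_apply, univ_inter,
    smul_eq_mul, mul_one] at hvol
  rw [show (volume (secSet h K)).toReal = volume.real (secSet h K) from rfl, hvol,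
    intervalIntegral.integral_mul_const]
  rfl

theorem vol_ne {m : ℕ} {h : ℝ → ℝ} (hc : Continuous h) (hpos : ∀ u ∈ Ioo (0 : ℝ) 1, 0 < h u)
    {K : Set (Fin m → ℝ)} (hK : IsCompact K) (hK0 : volume K ≠ 0) : volume (secSet h K) ≠ 0 := by
  intro h0
  have h1 := law_vol hc hpos hK
  have h2 : 0 < mass m h * (volume K).toReal :=
    mul_pos (mass_pos m hc hpos) (ENNReal.toReal_pos hK0 hK.measure_lt_top.ne)
  rw [h0, ENNReal.toReal_zero] at h1
  linarith

theorem law {m : ℕ} {h : ℝ → ℝ} (hc : Continuous h) (hpos : ∀ u ∈ Ioo (0 : ℝ) 1, 0 < h u)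
    {K : Set (Fin m → ℝ)} (hK : IsCompact K) (hK0 : volume K ≠ 0) (g : (Fin m → ℝ) × ℝ → ℝ) (hg : Continuous g) :
    mass m h * ∫ z, g z ∂(unif volume (secSet h K)) =
      ∫ u in (0 : ℝ)..1, h u ^ m * ∫ x, g (h u • x, u) ∂(unif volume K) := by
  have hV := law_vol hc hpos hK
  have hM : mass m h ≠ 0 := (mass_pos m hc hpos).ne'
  have hK' : (volume K).toReal ≠ 0 := (ENNReal.toReal_pos hK0 hK.measure_lt_top.ne).ne'
  have hmain := integral_secSet hc hpos hK g hg
  have hrhs : (∫ u in (0 : ℝ)..1, h u ^ m * ∫ x, g (h u • x, u) ∂(unif volume K)) =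
      ((volume K).toReal)⁻¹ * ∫ u in (0 : ℝ)..1, h u ^ m * ∫ x in K, g (h u • x, u) := by
    rw [← intervalIntegral.integral_const_mul]
    refine intervalIntegral.integral_congr (fun u _ => ?_)
    simp only [unif, integral_smul_measure, smul_eq_mul, ENNReal.toReal_inv]
    ring
  rw [hrhs, ← hmain]
  simp only [unif, integral_smul_measure, smul_eq_mul, ENNReal.toReal_inv]
  rw [hV]
  field_simp

end Pool.Agent.Lib.HSC
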