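import Pool.Agent.Lib.HSC.Mean

/-!
# HSC / SumM: the polygon inequality for monotone profiles

PROOF IN WORDS. Antitone: `a = h 0`, `b = h 1 ≤ a`; by concavity `h u ≥ a - (a - b) u` on `[0,1]`, so `∑ h (u k) ≥ n a - (a - b) n mean ≥ n a - (a - b) n / 2 = n (a + b) / 2 ≥ 2 a ≥ 2 h (u i)`: for `n ≥ 4` as `b ≥ 0`, for `n = 3` as `b ≥ a / 3`. Monotone: `h u ≥ a + (b - a) u`, `mean ≥ 1/2`, the same.
-/

set_option autoImplicit false

open MeasureTheory Set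

namespace Pool.Agent.Lib.HSC

private theorem sm_chord {h : ℝ → ℝ} (hconc : ConcaveOn ℝ (Icc (0 : ℝ) 1) h) {u : ℝ}
    (hu : u ∈ Icc (0 : ℝ) 1) : (1 - u) * h 0 + u * h 1 ≤ h u := by
  have h1 := hconc.2 (left_mem_Icc.2 zero_le_one) (right_mem_Icc.2 zero_le_one)
    (sub_nonneg.2 hu.2) hu.1 (by ring)
  simpa [smul_eq_mul] using h1

private theorem sm_sum {n : ℕ} {h : ℝ → ℝ} (hconc : ConcaveOn ℝ (Icc (0 : ℝ) 1) h) {M : ℝ}
    (u : Fin n → ℝ) (hu : ∀ i, u i ∈ Icc (0 : ℝ) 1) (hs : ∑ i, u i = n * M) :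
    n * h 0 + (h 1 - h 0) * (n * M) ≤ ∑ k, h (u k) := by
  calc n * h 0 + (h 1 - h 0) * (n * M) = ∑ k, ((1 - u k) * h 0 + u k * h 1) := by
        rw [Finset.sum_add_distrib, ← Finset.sum_mul, ← Finset.sum_mul, Finset.sum_sub_distrib, hs]
        simp
        ring
    _ ≤ ∑ k, h (u k) := Finset.sum_le_sum (fun k _ => sm_chord hconc (hu k))

theorem sum_mono {m n : ℕ} (hn : 3 ≤ n) {h : ℝ → ℝ} (hc : Continuous h)
    (hconc : ConcaveOn ℝ (Icc (0 : ℝ) 1) h) (h0 : ∀ u ∈ Icc (0 : ℝ) 1, 0 ≤ h u) (hmass : 0 < mass m h)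
    (hmon : MonotoneOn h (Icc (0 : ℝ) 1) ∨ AntitoneOn h (Icc (0 : ℝ) 1))
    (hcase : 4 ≤ n ∨ ∀ u ∈ Icc (0 : ℝ) 1, ∀ v ∈ Icc (0 : ℝ) 1, h u ≤ 3 * h v)
    (u : Fin n → ℝ) (hu : ∀ i, u i ∈ Icc (0 : ℝ) 1) (hs : ∑ i, u i = n * mean m h) (i : Fin n) :
    2 * h (u i) ≤ ∑ k, h (u k) := by
  have e0 : (0 : ℝ) ∈ Icc (0 : ℝ) 1 := left_mem_Icc.2 zero_le_one
  have e1 : (1 : ℝ) ∈ Icc (0 : ℝ) 1 := right_mem_Icc.2 zero_le_one
  have hsum := sm_sum hconc u hu hs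
  have hn3 : (3 : ℝ) ≤ n := by exact_mod_cast hn
  have ha := h0 0 e0
  have hb := h0 1 e1
  rcases hmon with hm | hm
  · have hM := le_mean hc h0 hm hmass
    have hab : h 0 ≤ h 1 := hm e0 e1 zero_le_one
    have hui : h (u i) ≤ h 1 := hm (hu i) e1 (hu i).2
    have h1 : (h 1 - h 0) * (n * (1 / 2)) ≤ (h 1 - h 0) * (n * mean m h) :=
      mul_le_mul_of_nonneg_left (mul_le_mul_of_nonneg_left hM (by linarith)) (by linarith)
    have h2 : 2 * h 1 ≤ n * ((h 0 + h 1) / 2) := by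
      rcases hcase with h4 | h3
      · have h4' : (4 : ℝ) ≤ n := by exact_mod_cast h4
        nlinarith
      · have h5 := h3 1 e1 0 e0
        nlinarith
    nlinarith
  · have hM := mean_le hc h0 hm hmass
    have hab : h 1 ≤ h 0 := hm e0 e1 zero_le_one
    have hui : h (u i) ≤ h 0 := hm e0 (hu i) (hu i).1
    have h1 : (h 0 - h 1) * (n * mean m h) ≤ (h 0 - h 1) * (n * (1 / 2)) :=
      mul_le_mul_of_nonneg_left (mul_le_mul_of_nonneg_left hM (by linarith)) (by linarith)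
    have h2 : 2 * h 0 ≤ n * ((h 0 + h 1) / 2) := by
      rcases hcase with h4 | h3
      · have h4' : (4 : ℝ) ≤ n := by exact_mod_cast h4
        nlinarith
      · have h5 := h3 0 e0 1 e1
        nlinarith
    nlinarith

end Pool.Agent.Lib.HSC
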